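import Pool.Agent.H93.ET.Defs
import Pool.Agent.H87.Synth.Key
import Pool.Agent.H23.Synth.Growth

namespace Pool.Agent.H23.ET

open MeasureTheory AddCircle Finset
open Pool.Agent.H93.ET Pool.Agent.H85.SC Pool.Agent.H87.Synth

theorem all (h : T_NGT) : T_ALL := by
  intro d hpos hmono
  constructor
  · intro H hs
    obtain ⟨r, -, h2, h3⟩ := h d hpos hmono hs
    exact h3 (H r fun m n _ hmn => h2 m n hmn)
  · intro hdiv r hr
    exact synthesis_of_approx r (Pool.Agent.H23.Synth.approx_growth r d hpos hmono hdiv hr)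

end Pool.Agent.H23.ET
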