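import Pool.Agent.H93.ET.Defs

namespace Pool.Agent.H23.ET

open MeasureTheory AddCircle Finset
open Pool.Agent.H93.ET Pool.Agent.H85.SC Pool.Agent.H87.Synth

theorem cri : T_CRI := by
  classical
  intro ι cl hdis f Λ hf hsum hout hne
  let r : Setoid ℤ :=
    { r := fun m n => m = n ∨ ∃ c, m ∈ cl c ∧ n ∈ cl c
      iseqv := by
        refine ⟨fun m => Or.inl rfl, ?_, ?_⟩
        · rintro m n (h | ⟨c, h1, h2⟩)
          · exact Or.inl h.symm
          · exact Or.inr ⟨c, h2, h1⟩
        · rintro m n k (h | ⟨c, h1, h2⟩) (h' | ⟨c', h1', h2'⟩)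
          · exact Or.inl (h.trans h')
          · exact Or.inr ⟨c', h ▸ h1', h2'⟩
          · exact Or.inr ⟨c, h1, h' ▸ h2⟩
          · have hc := hdis c c' n h2 h1'
            exact Or.inr ⟨c, h1, hc ▸ h2'⟩ }
  have hr : ∀ m n, r m n ↔ m = n ∨ ∃ c, m ∈ cl c ∧ n ∈ cl c := fun m n => Iff.rfl
  refine ⟨r, hr, ?_⟩
  have hfin : ∀ n, {m | r n m}.Finite := by
    intro n
    by_cases hn : ∃ c, n ∈ cl c
    · obtain ⟨c, hc⟩ := hn
      refine ((cl c).finite_toSet).subset ?_
      rintro m (h | ⟨c', h1, h2⟩)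
      · exact h ▸ hc
      · have hcc := hdis c c' n hc h1
        exact hcc ▸ h2
    · refine (Set.finite_singleton n).subset ?_
      rintro m (h | ⟨c', h1, h2⟩)
      · exact h.symm
      · exact (hn ⟨c', h1⟩).elim
  refine not_synthesis r hfin Λ ?_ f ?_ hne
  · intro S n₀ hS
    have hm : Λ (eS S) = ∑ k ∈ S, Λ (ex k) := by
      unfold eS
      exact map_sum Λ _ _
    rw [hm]
    by_cases hn : ∃ c, n₀ ∈ cl c
    · obtain ⟨c, hc⟩ := hn
      have hSc : S = cl c := by
        ext m
        rw [hS, hr]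
        constructor
        · rintro (h | ⟨c', h1, h2⟩)
          · exact h ▸ hc
          · have hcc := hdis c c' n₀ hc h1
            exact hcc ▸ h2
        · intro h
          exact Or.inr ⟨c, hc, h⟩
      rw [hSc]
      exact hsum c
    · have hSc : S = {n₀} := by
        ext m
        rw [hS, hr, Finset.mem_singleton]
        constructor
        · rintro (h | ⟨c', h1, h2⟩)
          · exact h.symm
          · exact (hn ⟨c', h1⟩).elim
        · intro h
          exact Or.inl h.symm
      rw [hSc, Finset.sum_singleton]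
      exact hout n₀ fun c hc => hn ⟨c, hc⟩
  · rintro m n (h | ⟨c, h1, h2⟩)
    · rw [h]
    · exact hf c m h1 n h2

end Pool.Agent.H23.ET
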