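import Pool.Agent.H93.ET.Defs

namespace Pool.Agent.H23.ET

open MeasureTheory AddCircle Finset
open Pool.Agent.H93.ET Pool.Agent.H85.SC Pool.Agent.H87.Synth

private theorem fourier_neg_zpow' (z : ℤ) (x : Circ) :
    (fourier (-z) x : ℂ) = (fourier (-1) x : ℂ) ^ z := by
  have h : ∀ k : ℕ, (fourier (-(k : ℤ)) x : ℂ) = (fourier (-1) x : ℂ) ^ k := by
    intro k
    induction k with
    | zero => simp
    | succ k ih =>
      rw [pow_succ, ← ih, ← fourier_add]
      congr 2
      push_cast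
      ring
  obtain ⟨k, rfl | rfl⟩ := z.eq_nat_or_neg
  · rw [h k, zpow_natCast]
  · rw [zpow_neg, zpow_natCast, ← h k]
    have h1 : (fourier (-(k : ℤ)) x : ℂ) * fourier (k : ℤ) x = 1 := by
      rw [← fourier_add, neg_add_cancel, fourier_zero]
    rw [neg_neg]
    exact (eq_inv_of_mul_eq_one_right h1)

theorem ser : T_SER := by
  intro A G e he hG
  let Φ : ℕ → (L1 →L[ℂ] ℂ) := fun k => ∑ z ∈ A k, G k z • coeffL z
  have hΦ : ∀ k g, Φ k g = ∑ z ∈ A k, G k z * coeff g z := by
    intro k g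
    simp only [Φ, _root_.sum_apply, smul_apply, coeffL_apply, smul_eq_mul]
  have hb : ∀ k, ‖Φ k‖ ≤ e k := by
    intro k
    refine ContinuousLinearMap.opNorm_le_bound _
      ((norm_nonneg _).trans (hG k 1 (by simp))) fun g => ?_
    rw [hΦ]
    refine norm_functional_le _ _ _ ?_ g
    intro x
    have h1 := hG k (fourier (-1) x) (fourier_norm_apply _ _)
    have h2 : ∑ z ∈ A k, G k z * (fourier (-z) x : ℂ) =
        ∑ z ∈ A k, G k z * (fourier (-1) x : ℂ) ^ z :=
      Finset.sum_congr rfl fun z _ => by rw [fourier_neg_zpow']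
    rw [h2]
    exact h1
  have hs : Summable Φ := Summable.of_norm_bounded he hb
  refine ⟨∑' k, Φ k, fun f => ?_⟩
  have h3 := (ContinuousLinearMap.apply ℂ ℂ f).hasSum hs.hasSum
  have h4 : (fun k => ∑ z ∈ A k, G k z * coeff f z) =
      fun k => (ContinuousLinearMap.apply ℂ ℂ f) (Φ k) := by
    funext k
    exact (hΦ k f).symm
  rw [h4]
  exact h3

end Pool.Agent.H23.ET
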